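import Pool.Agent.Q77.BT.Base

/-! # Project BT: angles of frames (job ANG) -/

set_option autoImplicit false

open Set Metric

namespace Pool.Agent.Q110.BT

open Pool.Agent.Q77.BT

theorem sym : S_SYM := by
  intro m n ι ι' a ha0 ha1 h p
  set T : E m →ₗ[ℝ] E m := ((ad ι).comp ι'.toContinuousLinearMap : E m →L[ℝ] E m).toLinearMap
    with hT
  have hTq : ∀ q, T q = ad ι (ι' q) := fun q => rfl
  have hbd : ∀ q : E m, ‖q‖ ≤ 2 * ‖T q‖ := by
    intro q
    have h1 := pyth ι (ι' q)
    rw [LinearIsometry.norm_map, ← hTq] at h1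
    have h2 := h q
    have h3 : ‖off ι (ι' q)‖ ^ 2 ≤ (1 / 2 * ‖q‖) ^ 2 := by
      apply pow_le_pow_left₀ (norm_nonneg _)
      exact h2.trans (mul_le_mul_of_nonneg_right ha1 (norm_nonneg _))
    apply le_of_sq_le_sq _ (by positivity)
    nlinarith [sq_nonneg ‖q‖]
  have hinj : Function.Injective T := by
    rw [← LinearMap.ker_eq_bot, LinearMap.ker_eq_bot']
    intro q hq
    have h1 := hbd q
    rw [hq, norm_zero, mul_zero] at h1
    exact norm_le_zero_iff.1 h1
  obtain ⟨q, rfl⟩ := LinearMap.surjective_of_injective hinj p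
  have h1 : ι (T q) = ι' q - off ι (ι' q) := by
    rw [hTq, off_apply]
    abel
  have h2 := norm_off_le_sub ι' (ι (T q)) q
  have h3 : ‖ι (T q) - ι' q‖ = ‖off ι (ι' q)‖ := by
    rw [h1, sub_sub_cancel_left, norm_neg]
  rw [h3] at h2
  calc ‖off ι' (ι (T q))‖ ≤ a * ‖q‖ := h2.trans (h q)
    _ ≤ a * (2 * ‖T q‖) := mul_le_mul_of_nonneg_left (hbd q) ha0
    _ = 2 * a * ‖T q‖ := by ring

theorem ang : S_ANG := by
  intro m n M x t c δ s ι ι' ht hc0 hc1 hDe hFl hs
  set A : E m →L[ℝ] E n := (off ι).comp ι'.toContinuousLinearMap with hA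
  have hAp : ∀ p, A p = off ι (ι' p) := fun p => rfl
  set a : ℝ := ‖A‖ with ha
  have ha0 : 0 ≤ a := norm_nonneg _
  have hsδ : 0 ≤ s ∧ 0 ≤ δ := by
    obtain ⟨z, hz, hzd⟩ := hDe 0 (by rw [norm_zero]; positivity)
    rw [map_zero, sub_zero] at hzd
    have hd : dist z x ≤ t / 40 := by
      rw [dist_eq_norm]
      refine hzd.trans ?_
      nlinarith
    constructor
    · have h1 := (norm_nonneg _).trans (hs z hz (hd.trans (by linarith)))
      by_contra hcon
      push Not at hcon
      nlinarith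
    · have h1 := (norm_nonneg _).trans (hFl z hz (hd.trans (by linarith)))
      by_contra hcon
      push Not at hcon
      nlinarith
  have key : ∀ p : E m, ‖p‖ ≤ t / 10 → ‖A p‖ ≤ ((s + δ) + a * c) * t := by
    intro p hp
    obtain ⟨z, hz, hzd⟩ := hDe p hp
    have hd : dist z x ≤ t / 5 := by
      rw [dist_eq_norm]
      have h1 : z - x = (z - x - ι' p) + ι' p := by abel
      rw [h1]
      refine (norm_add_le _ _).trans ?_
      rw [LinearIsometry.norm_map]
      nlinarith
    have h1 := hs z hz hd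
    have h2 := hFl z hz (hd.trans (by linarith))
    have h3 := norm_ad_sub_le ι' (z - x) p
    have h4 : A p = off ι (z - x) - off ι (off ι' (z - x)) - A (ad ι' (z - x) - p) := by
      have h5 : ι' (ad ι' (z - x)) = z - x - off ι' (z - x) := by
        rw [off_apply ι']
        abel
      have h6 : A (ad ι' (z - x) - p) = A (ad ι' (z - x)) - A p := map_sub A _ _
      have h7 : A (ad ι' (z - x)) = off ι (z - x) - off ι (off ι' (z - x)) := by
        rw [hAp, h5]
        exact map_sub (off ι) _ _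
      rw [h6, h7]
      abel
    rw [h4]
    refine (norm_sub_le _ _).trans ?_
    have h6 : ‖off ι (z - x) - off ι (off ι' (z - x))‖ ≤ s * t + δ * t :=
      (norm_sub_le _ _).trans (add_le_add h1 ((norm_off_le _ _).trans h2))
    have h7 : ‖A (ad ι' (z - x) - p)‖ ≤ a * (c * t) :=
      (A.le_opNorm _).trans (mul_le_mul_of_nonneg_left (h3.trans hzd) ha0)
    nlinarith
  have hB : 0 ≤ (s + δ) + a * c := by
    have := mul_nonneg ha0 hc0
    linarith [hsδ.1, hsδ.2]
  have hall : ∀ p : E m, ‖A p‖ ≤ 10 * ((s + δ) + a * c) * ‖p‖ := by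
    intro p
    by_cases hp : p = 0
    · subst hp
      simp
    have hp0 : 0 < ‖p‖ := norm_pos_iff.2 hp
    have h1 := key ((t / (10 * ‖p‖)) • p) (by
      rw [norm_smul, Real.norm_of_nonneg (by positivity)]
      apply le_of_eq
      field_simp)
    rw [map_smul, norm_smul, Real.norm_of_nonneg (by positivity), div_mul_eq_mul_div,
      div_le_iff₀ (by positivity)] at h1
    have h2 : t * ‖A p‖ ≤ t * (10 * ((s + δ) + a * c) * ‖p‖) := by linarith
    exact le_of_mul_le_mul_left h2 ht
  have hle : a ≤ 10 * ((s + δ) + a * c) :=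
    A.opNorm_le_bound (by positivity) hall
  intro p
  rw [← hAp]
  refine (A.le_opNorm p).trans (mul_le_mul_of_nonneg_right ?_ (norm_nonneg _))
  have h5 : a * c ≤ a * (1 / 40) := mul_le_mul_of_nonneg_left hc1 ha0
  linarith [hsδ.1, hsδ.2]

end Pool.Agent.Q110.BT
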