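import Pool.Agent.Q77.BT.Base
import Pool.Agent.Helper133.Brouwer

/-!
# Project BT: surjectivity of the projection
-/

set_option autoImplicit false

open MeasureTheory Set Metric Filter Topology
open scoped NNReal RealInnerProductSpace

noncomputable section

namespace Pool.Agent.Q110.BT

open Pool.Agent.Q77.BT

variable {m n : ℕ}

/-- a compact set with points arbitrarily near a closed set meets it -/
theorem meet {M P : Set (E n)} (hM : IsCompact M) (hP : IsClosed P)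
    (h : ∀ e : ℝ, 0 < e → ∃ w ∈ P, ∃ z ∈ M, dist w z ≤ e) : ∃ z ∈ M, z ∈ P := by
  by_contra hcon
  push Not at hcon
  have hd : Disjoint M P := by
    rw [Set.disjoint_left]; exact hcon
  obtain ⟨δ, hδ, hdis⟩ := hd.exists_cthickenings hM hP
  obtain ⟨w, hw, z, hz, hwz⟩ := h δ hδ
  rw [Set.disjoint_left] at hdis
  exact hdis (mem_cthickening_of_dist_le w z δ M hz hwz)
    (self_subset_cthickening P hw)

/-- the retraction to the ball of radius `R` -/
def ret (R : ℝ) (p : E m) : E m := (R / max R ‖p‖) • p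

theorem ret_cont {R : ℝ} (hR : 0 < R) : Continuous (ret (m := m) R) := by
  have h : ∀ p : E m, max R ‖p‖ ≠ 0 := fun p => by
    have : R ≤ max R ‖p‖ := le_max_left _ _
    linarith
  have hc : Continuous fun p : E m => max R ‖p‖ := by fun_prop
  have hd : Continuous fun p : E m => R / max R ‖p‖ := continuous_const.div hc h
  exact hd.smul continuous_id

theorem ret_le {R : ℝ} (hR : 0 < R) (p : E m) : ‖ret R p‖ ≤ R := by
  unfold ret
  have h1 : R ≤ max R ‖p‖ := le_max_left _ _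
  have h2 : ‖p‖ ≤ max R ‖p‖ := le_max_right _ _
  have h0 : 0 < max R ‖p‖ := lt_of_lt_of_le hR h1
  rw [norm_smul, Real.norm_eq_abs, abs_of_pos (div_pos hR h0), div_mul_eq_mul_div, div_le_iff₀ h0]
  exact mul_le_mul_of_nonneg_left h2 hR.le

theorem ret_of_le {R : ℝ} (hR : 0 < R) {p : E m} (hp : ‖p‖ ≤ R) : ret R p = p := by
  unfold ret
  rw [max_eq_left hp, div_self hR.ne', one_smul]

open Classical in
/-- one approximating disc -/
theorem one_disc (x : E n) (r τ : ℝ) (ι : Fr m n) (hr : 0 < r) (hτ0 : 0 < τ) (hτr : τ ≤ r)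
    (w : E m → E n) (hw : ContinuousOn w (closedBall 0 (11 / 10 * r)))
    (hnear : ∀ q, ‖q‖ ≤ 11 / 10 * r → ‖w q - x - ι q‖ ≤ r / 25)
    (hoff : ∀ q, ‖q‖ ≤ 11 / 10 * r → ‖w q - x‖ ≤ r → τ ^ 2 ≤ r ^ 2 - ‖off ι (w q - x)‖ ^ 2)
    (q0 : E m) (hq0 : ‖q0‖ < τ) :
    ∃ q, ‖q‖ ≤ 11 / 10 * r ∧ ‖w q - x‖ ≤ r ∧ ad ι (w q - x) = q0 := by
  have hR : 0 < 11 / 10 * r := by linarith
  set π : E m → E m := ret (11 / 10 * r) with hπ
  have hπc : Continuous π := ret_cont hR
  have hπle : ∀ p, ‖π p‖ ≤ 11 / 10 * r := fun p => ret_le hR p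
  set W : E m → E n := fun p => w (π p) with hW
  have hWc : Continuous W := hw.comp_continuous hπc (fun p => by
    rw [mem_closedBall_zero_iff]; exact hπle p)
  set a : E m → E m := fun p => ad ι (W p - x) with ha
  have hac : Continuous a := (ad ι).continuous.comp (hWc.sub continuous_const)
  set g : E m → E m := fun p => (max 1 (τ / max ‖a p‖ (τ / 2))) • a p with hg
  have hgc : Continuous g := by
    have h : ∀ p : E m, max ‖a p‖ (τ / 2) ≠ 0 := fun p => by
      have : τ / 2 ≤ max ‖a p‖ (τ / 2) := le_max_right _ _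
      linarith
    have hc : Continuous fun p : E m => max ‖a p‖ (τ / 2) := by fun_prop
    have hd : Continuous fun p : E m => τ / max ‖a p‖ (τ / 2) := continuous_const.div hc h
    have he : Continuous fun p : E m => max 1 (τ / max ‖a p‖ (τ / 2)) := by fun_prop
    exact he.smul hac
  -- size of the projection outside
  have hsize : ∀ p, r ≤ ‖W p - x‖ → 999 / 1000 * r ≤ ‖a p‖ := by
    intro p hp
    have h1 := pyth ι (W p - x)
    have h2 := norm_off_le_sub ι (W p - x) (π p)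
    have h3 : ‖off ι (W p - x)‖ ≤ r / 25 := h2.trans (hnear _ (hπle p))
    have h4 := norm_nonneg (off ι (W p - x))
    have h5 : (999 / 1000 * r) ^ 2 ≤ ‖a p‖ ^ 2 := by
      show (999 / 1000 * r) ^ 2 ≤ ‖ad ι (W p - x)‖ ^ 2
      nlinarith [mul_self_nonneg r]
    exact le_of_sq_le_sq h5 (norm_nonneg _)
  have hgbig : ∀ p, r ≤ ‖W p - x‖ → τ ≤ ‖g p‖ := by
    intro p hp
    have h1 := hsize p hp
    have h2 : max ‖a p‖ (τ / 2) = ‖a p‖ := max_eq_left (by linarith)
    have h3 : 0 < ‖a p‖ := by linarith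
    show τ ≤ ‖(max 1 (τ / max ‖a p‖ (τ / 2))) • a p‖
    rw [h2, norm_smul, Real.norm_eq_abs, abs_of_pos (lt_of_lt_of_le one_pos (le_max_left _ _))]
    calc τ = τ / ‖a p‖ * ‖a p‖ := by field_simp
      _ ≤ _ := mul_le_mul_of_nonneg_right (le_max_right _ _) h3.le
  have hgdiff : ∀ p, r ≤ ‖W p - x‖ → ‖g p - a p‖ ≤ r / 1000 := by
    intro p hp
    have h1 := hsize p hp
    have h2 : max ‖a p‖ (τ / 2) = ‖a p‖ := max_eq_left (by linarith)
    have h3 : 0 < ‖a p‖ := by linarith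
    have e1 : g p - a p = (max 1 (τ / ‖a p‖) - 1) • a p := by
      show (max 1 (τ / max ‖a p‖ (τ / 2))) • a p - a p = _
      rw [h2, sub_smul, one_smul]
    have h4 : (1 : ℝ) ≤ max 1 (τ / ‖a p‖) := le_max_left _ _
    rw [e1, norm_smul, Real.norm_eq_abs, abs_of_nonneg (by linarith)]
    rcases le_total (τ / ‖a p‖) 1 with h | h
    · rw [max_eq_left h]; simp; linarith
    · rw [max_eq_right h, sub_mul, div_mul_cancel₀ _ h3.ne']
      linarith
  have heq : ∀ p, ‖W p - x‖ = r → a p = g p := by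
    intro p hp
    have h0 := hoff (π p) (hπle p) hp.le
    have h1 := pyth ι (W p - x)
    have h2 : τ ^ 2 ≤ ‖a p‖ ^ 2 := by
      show τ ^ 2 ≤ ‖ad ι (W p - x)‖ ^ 2
      have h0' : τ ^ 2 ≤ r ^ 2 - ‖off ι (W p - x)‖ ^ 2 := h0
      rw [hp] at h1
      linarith
    have h3 : τ ≤ ‖a p‖ := le_of_sq_le_sq h2 (norm_nonneg _)
    have h4 : max ‖a p‖ (τ / 2) = ‖a p‖ := max_eq_left (by linarith)
    show a p = (max 1 (τ / max ‖a p‖ (τ / 2))) • a p
    rw [h4, max_eq_left, one_smul]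
    rw [div_le_one (by linarith)]
    exact h3
  set F : E m → E m := fun p => if ‖W p - x‖ ≤ r then a p else g p with hF
  have hFc : Continuous F :=
    Continuous.if_le hac hgc ((hWc.sub continuous_const).norm) continuous_const heq
  have hFclose : ∀ p, ‖F p - a p‖ ≤ r / 1000 := by
    intro p
    show ‖(if ‖W p - x‖ ≤ r then a p else g p) - a p‖ ≤ r / 1000
    split_ifs with h
    · rw [sub_self, norm_zero]; linarith
    · exact hgdiff p (not_le.1 h).le
  have haclose : ∀ p, ‖a p - π p‖ ≤ r / 25 := fun p =>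
    (norm_ad_sub_le ι (W p - x) (π p)).trans (hnear _ (hπle p))
  set G : E m → E m := fun p => π p - F p + q0 with hG
  have hGc : Continuous G := (hπc.sub hFc).add continuous_const
  have hGle : ∀ p, ‖G p‖ ≤ 11 / 10 * r := by
    intro p
    have e1 : G p = -(a p - π p) - (F p - a p) + q0 := by
      show π p - F p + q0 = _
      abel
    rw [e1]
    calc ‖-(a p - π p) - (F p - a p) + q0‖ ≤ ‖-(a p - π p) - (F p - a p)‖ + ‖q0‖ := norm_add_le _ _
      _ ≤ ‖-(a p - π p)‖ + ‖F p - a p‖ + ‖q0‖ := by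
        have := norm_sub_le (-(a p - π p)) (F p - a p)
        linarith
      _ ≤ r / 25 + r / 1000 + r := by
        rw [norm_neg]
        have := haclose p
        have := hFclose p
        linarith
      _ ≤ 11 / 10 * r := by linarith
  obtain ⟨p, hp⟩ := Pool.Agent.Helper133.Brouwer.brouwer_euclidean m G hGc _ hGle
  have hple : ‖p‖ ≤ 11 / 10 * r := by rw [← hp]; exact hGle p
  have hπp : π p = p := ret_of_le hR hple
  have hFp : F p = q0 := by
    have h1 : π p - F p + q0 = p := hp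
    rw [hπp] at h1
    have h2 : p - F p + q0 - p = 0 := by rw [h1, sub_self]
    have h3 : q0 - F p = 0 := by rw [← h2]; abel
    exact (sub_eq_zero.1 h3).symm
  have hWp : W p = w p := by
    show w (π p) = w p
    rw [hπp]
  have hin : ‖W p - x‖ ≤ r := by
    by_contra hcon
    have h1 : F p = g p := if_neg hcon
    have h2 := hgbig p (not_le.1 hcon).le
    rw [← h1, hFp] at h2
    linarith
  refine ⟨p, hple, by rw [← hWp]; exact hin, ?_⟩
  have h1 : F p = a p := if_pos hin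
  rw [← hWp, ← hFp, h1]

/-- the strict case -/
theorem strict (M : Set (E n)) (x : E n) (r b : ℝ) (ι : Fr m n) (hM : IsCompact M)
    (hr : 0 < r) (hb : 0 ≤ b) (hbr : b ≤ r / 20)
    (hoff : ∀ z ∈ M, dist z x ≤ r → ‖off ι (z - x)‖ ≤ b)
    (hdisc : ∀ e : ℝ, 0 < e → ∃ w : E m → E n, ContinuousOn w (closedBall 0 (11 / 10 * r)) ∧
      ∀ q : E m, ‖q‖ ≤ 11 / 10 * r → ‖w q - x - ι q‖ ≤ r / 25 ∧ ∃ z ∈ M, dist (w q) z ≤ e)
    (q0 : E m) (hq0 : ‖q0‖ ^ 2 < r ^ 2 - b ^ 2) :
    ∃ z ∈ M, dist z x ≤ r ∧ ad ι (z - x) = q0 := by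
  -- choose the loss
  obtain ⟨e', he'0, he'⟩ : ∃ e' : ℝ, 0 < e' ∧ e' ≤ r / 20 ∧ ‖q0‖ ^ 2 < r ^ 2 - (b + e') ^ 2 := by
    have hc : Tendsto (fun e' : ℝ => r ^ 2 - (b + e') ^ 2) (𝓝[>] 0) (𝓝 (r ^ 2 - (b + 0) ^ 2)) := by
      have : Continuous fun e' : ℝ => r ^ 2 - (b + e') ^ 2 := by fun_prop
      exact (this.tendsto 0).mono_left nhdsWithin_le_nhds
    rw [add_zero] at hc
    have h1 := hc.eventually (lt_mem_nhds hq0)
    have h2 : ∀ᶠ e' : ℝ in 𝓝[>] 0, e' ≤ r / 20 := by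
      have : Iic (r / 20) ∈ 𝓝 (0 : ℝ) := Iic_mem_nhds (by linarith)
      exact nhdsWithin_le_nhds this
    have h3 : ∀ᶠ e' : ℝ in 𝓝[>] 0, 0 < e' := eventually_mem_nhdsWithin
    obtain ⟨e', h⟩ := (h1.and (h2.and h3)).exists
    exact ⟨e', h.2.2, h.2.1, h.1⟩
  obtain ⟨he'r, he'q⟩ := he'
  set τ : ℝ := Real.sqrt (r ^ 2 - (b + e') ^ 2) with hτ
  have hpos : 0 < r ^ 2 - (b + e') ^ 2 := lt_of_le_of_lt (sq_nonneg _) he'q
  have hτ2 : τ ^ 2 = r ^ 2 - (b + e') ^ 2 := Real.sq_sqrt hpos.le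
  have hτ0 : 0 < τ := Real.sqrt_pos.2 hpos
  have hτr : τ ≤ r := by
    apply le_of_sq_le_sq _ hr.le
    rw [hτ2]
    nlinarith [sq_nonneg (b + e')]
  have hq0τ : ‖q0‖ < τ := by
    rw [hτ]; exact Real.lt_sqrt_of_sq_lt he'q
  -- near `M` the slab is a bit wider
  obtain ⟨e0, he0, hslab⟩ : ∃ e0 : ℝ, 0 < e0 ∧ ∀ w, (∃ z ∈ M, dist w z ≤ e0) → dist w x ≤ r →
      ‖off ι (w - x)‖ ≤ b + e' := by
    by_contra hcon
    push Not at hcon
    have hP : IsClosed {w : E n | dist w x ≤ r ∧ b + e' ≤ ‖off ι (w - x)‖} := by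
      apply IsClosed.inter
      · exact isClosed_le (continuous_id.dist continuous_const) continuous_const
      · exact isClosed_le continuous_const
          ((off ι).continuous.comp (continuous_id.sub continuous_const)).norm
    obtain ⟨z, hzM, hz1, hz2⟩ := meet hM hP (by
      intro e he
      obtain ⟨w, hwz, hwx, hwo⟩ := hcon e he
      exact ⟨w, ⟨hwx, hwo.le⟩, hwz⟩)
    have := hoff z hzM hz1
    linarith
  have hP : IsClosed {w : E n | dist w x ≤ r ∧ ad ι (w - x) = q0} := by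
    apply IsClosed.inter
    · exact isClosed_le (continuous_id.dist continuous_const) continuous_const
    · exact isClosed_eq ((ad ι).continuous.comp (continuous_id.sub continuous_const))
        continuous_const
  obtain ⟨z, hzM, hz1, hz2⟩ := meet hM hP (by
    intro e he
    obtain ⟨w, hwc, hw⟩ := hdisc (min e e0) (lt_min he he0)
    obtain ⟨q, hq1, hq2, hq3⟩ := one_disc x r τ ι hr hτ0 hτr w hwc (fun q hq => (hw q hq).1) (by
      intro q hq hqr
      obtain ⟨z, hz, hd⟩ := (hw q hq).2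
      have h1 := hslab (w q) ⟨z, hz, hd.trans (min_le_right _ _)⟩ (by rwa [dist_eq_norm])
      rw [hτ2]
      have h2 := norm_nonneg (off ι (w q - x))
      nlinarith) q0 hq0τ
    obtain ⟨z, hz, hd⟩ := (hw q hq1).2
    exact ⟨w q, ⟨by rwa [dist_eq_norm], hq3⟩, z, hz, hd.trans (min_le_left _ _)⟩)
  exact ⟨z, hzM, hz1, hz2⟩

theorem top : S_TOP := by
  intro m n M x r b ι hM hr hb hbr hoff hdisc q hq
  rcases lt_or_eq_of_le hq with h | h
  · exact strict M x r b ι hM hr hb hbr hoff hdisc q h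
  · have hpos : 0 < r ^ 2 - b ^ 2 := by nlinarith
    have hK : IsCompact ((fun z => ad ι (z - x)) '' (M ∩ closedBall x r)) := by
      apply IsCompact.image (hM.inter_right isClosed_closedBall)
      exact (ad ι).continuous.comp (continuous_id.sub continuous_const)
    have hlim : Tendsto (fun s : ℝ => s • q) (𝓝[<] 1) (𝓝 ((1 : ℝ) • q)) := by
      have : Continuous fun s : ℝ => s • q := by fun_prop
      exact (this.tendsto 1).mono_left nhdsWithin_le_nhds
    rw [one_smul] at hlim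
    have hmem : q ∈ (fun z => ad ι (z - x)) '' (M ∩ closedBall x r) := by
      apply hK.isClosed.mem_of_tendsto hlim
      have h1 : ∀ᶠ s : ℝ in 𝓝[<] 1, s < 1 := eventually_mem_nhdsWithin
      have h2 : ∀ᶠ s : ℝ in 𝓝[<] 1, 0 < s := by
        have : Ioi (0 : ℝ) ∈ 𝓝 (1 : ℝ) := Ioi_mem_nhds one_pos
        exact nhdsWithin_le_nhds this
      filter_upwards [h1, h2] with s hs1 hs0
      obtain ⟨z, hz, hzr, hzq⟩ := strict M x r b ι hM hr hb hbr hoff hdisc (s • q) (by
        rw [norm_smul, Real.norm_eq_abs, abs_of_pos hs0, mul_pow, h]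
        have : s ^ 2 < 1 := by nlinarith
        nlinarith)
      exact ⟨z, ⟨hz, hzr⟩, hzq⟩
    obtain ⟨z, ⟨hz, hzr⟩, hzq⟩ := hmem
    exact ⟨z, hz, hzr, hzq⟩

end Pool.Agent.Q110.BT
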